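import Pool.Agent.helper76.MC.Defs

/-! # Project MC, module A1: the character `ez` -/

namespace Pool.Agent.helper76.MC

open Finset Pool.Agent.helper34.DH Pool.Agent.helper76.FV Pool.Agent.helper76.LP
open Pool.Agent.helper76.UR
open Matrix (SpecialLinearGroup)

theorem ez_coe (r : ℚ) : ez ((r : ℚ) : QZ) = Complex.exp (2 * Real.pi * Complex.I * (r : ℂ)) := rfl

theorem ez_zero : ez 0 = 1 := by
  have h : (0 : QZ) = ((0 : ℚ) : QZ) := rfl
  rw [h, ez_coe]
  simp

theorem ez_add (x y : QZ) : ez (x + y) = ez x * ez y := by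
  induction x using QuotientAddGroup.induction_on with
  | H a =>
    induction y using QuotientAddGroup.induction_on with
    | H b =>
      have h : (((a : ℚ) : QZ) + ((b : ℚ) : QZ)) = ((a + b : ℚ) : QZ) := rfl
      rw [h, ez_coe, ez_coe, ez_coe, ← Complex.exp_add]
      congr 1
      push_cast
      ring

theorem ez_ne_zero (x : QZ) : ez x ≠ 0 := by
  induction x using QuotientAddGroup.induction_on with
  | H a => rw [ez_coe]; exact Complex.exp_ne_zero _

theorem ez_neg (x : QZ) : ez (-x) = (ez x)⁻¹ := by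
  have h := ez_add (-x) x
  rw [neg_add_cancel, ez_zero] at h
  exact eq_inv_of_mul_eq_one_left h.symm

theorem ez_nsmul (n : ℕ) (x : QZ) : ez (n • x) = ez x ^ n := by
  induction n with
  | zero => rw [zero_smul, ez_zero, pow_zero]
  | succ n ih => rw [succ_nsmul, ez_add, ih, pow_succ]

theorem ez_injective : Function.Injective ez := by
  intro x y
  induction x using QuotientAddGroup.induction_on with
  | H a =>
    induction y using QuotientAddGroup.induction_on with
    | H b =>
      intro h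
      rw [ez_coe, ez_coe, Complex.exp_eq_exp_iff_exists_int] at h
      obtain ⟨n, hn⟩ := h
      have h2 : (a : ℂ) = b + n := by
        have h3 : (2 * Real.pi * Complex.I : ℂ) ≠ 0 := Complex.two_pi_I_ne_zero
        have h4 : (2 * Real.pi * Complex.I : ℂ) * (a : ℂ) =
            (2 * Real.pi * Complex.I : ℂ) * (b + n) := by
          rw [hn]; ring
        exact mul_left_cancel₀ h3 h4
      have h3 : a = b + n := by exact_mod_cast h2
      refine (QuotientAddGroup.eq).2 ?_
      refine AddSubgroup.mem_zmultiples_iff.2 ⟨-n, ?_⟩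
      rw [h3]
      simp

theorem ez_sum (s : Multiset QZ) : ez s.sum = (s.map ez).prod := by
  induction s using Multiset.induction_on with
  | empty => simpa using ez_zero
  | cons a s ih => rw [Multiset.sum_cons, ez_add, ih, Multiset.map_cons, Multiset.prod_cons]

/-- roots of unity -/
theorem exists_ez (z : ℂ) (k : ℕ) (hk : 0 < k) (h : z ^ k = 1) : ∃ x : QZ, ez x = z ∧ k • x = 0 := by
  have : NeZero k := ⟨hk.ne'⟩
  have hz : z ≠ 0 := by
    rintro rfl
    rw [zero_pow hk.ne'] at h
    exact zero_ne_one h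
  have h1 : (Units.mk0 z hz) ∈ rootsOfUnity k ℂ := by
    rw [mem_rootsOfUnity]
    ext
    simpa using h
  obtain ⟨i, -, hi⟩ := (Complex.mem_rootsOfUnity k _).1 h1
  have hi' : z = Complex.exp (2 * Real.pi * Complex.I * (i / k)) := by
    rw [hi]; simp
  refine ⟨((i / k : ℚ) : QZ), ?_, ?_⟩
  · rw [ez_coe, hi']
    push_cast
    rfl
  · apply ez_injective
    rw [ez_nsmul, ez_zero, ez_coe]
    push_cast
    rw [← hi', h]

/-- an element killed by `k` is of the form `r / k` -/
theorem A1_torsion (k : ℕ) (hk : 0 < k) (x : QZ) (h : k • x = 0) :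
    ∃ r : ℕ, r < k ∧ x = ((r / k : ℚ) : QZ) := by
  induction x using QuotientAddGroup.induction_on with
  | H a =>
    have h1 : ((k * a : ℚ) : QZ) = 0 := by
      rw [← h]
      have : (k * a : ℚ) = k • a := by simp
      rw [this]
      rfl
    rw [AddCircle.coe_eq_zero_iff] at h1
    obtain ⟨n, hn⟩ := h1
    rw [zsmul_eq_mul, mul_one] at hn
    have hk0 : (k : ℤ) ≠ 0 := by exact_mod_cast hk.ne'
    have hkq : (k : ℚ) ≠ 0 := by exact_mod_cast hk.ne'
    have h2 : 0 ≤ n % (k : ℤ) := Int.emod_nonneg _ hk0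
    have h3 : n % (k : ℤ) < k := Int.emod_lt_of_pos _ (by exact_mod_cast hk)
    refine ⟨(n % (k : ℤ)).toNat, by omega, ?_⟩
    have h4 : ((n % (k : ℤ)).toNat : ℚ) = ((n % (k : ℤ) : ℤ) : ℚ) := by
      have := Int.toNat_of_nonneg h2
      exact_mod_cast this
    refine (QuotientAddGroup.eq).2 ?_
    refine AddSubgroup.mem_zmultiples_iff.2 ⟨-(n / (k : ℤ)), ?_⟩
    rw [h4, zsmul_eq_mul, mul_one]
    have h5 : (n : ℚ) = k * ((n / (k : ℤ) : ℤ) : ℚ) + ((n % (k : ℤ) : ℤ) : ℚ) := by
      exact_mod_cast (Int.mul_ediv_add_emod n k).symm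
    rw [Int.cast_neg]
    field_simp
    linarith

theorem two_torsion (x : QZ) (h : 2 • x = 0) : x = 0 ∨ x = half := by
  obtain ⟨r, hr, rfl⟩ := A1_torsion 2 (by norm_num) x h
  interval_cases r
  · left
    simp
  · right
    simp [half]

theorem three_torsion (x : QZ) (h : 3 • x = 0) :
    x = 0 ∨ x = ((1 / 3 : ℚ) : QZ) ∨ x = ((2 / 3 : ℚ) : QZ) := by
  obtain ⟨r, hr, rfl⟩ := A1_torsion 3 (by norm_num) x h
  interval_cases r
  · left
    simp
  · right; left
    simp
  · right; right
    simp

end Pool.Agent.helper76.MC
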